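import Pool.Agent.Helper87.MX.Fr
import Pool.Agent.Helper51.MX.SUnit
import Pool.Agent.Helper61.DR.Diff

/-!
# MixingRates (MP_81910f_an): measures of finite support have exact averages at all large scales
-/

set_option autoImplicit false

open MeasureTheory Finset Filter

namespace Pool.Agent.Helper75.MX

open Pool.Agent.Helper87.MX

/-- iterates of a fixed multiple -/
lemma smul_iter {g M : ℕ} {x : Tor} (h : (g ^ M) • x = x) (n : ℕ) : (g ^ (M * n)) • x = x := by
  induction n with
  | zero => simp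
  | succ n ih => rw [Nat.mul_succ, pow_add, mul_smul, h, ih]

lemma smul_mod {g M : ℕ} {x : Tor} (h : (g ^ M) • x = x) (a : ℕ) :
    (g ^ a) • x = (g ^ (a % M)) • x := by
  conv_lhs => rw [← Nat.mod_add_div a M]
  rw [pow_add, mul_smul, smul_iter h]

/-- the value of a character at a point of the box of periods -/
lemma fourier_nat (n : ℕ) (x : Tor) :
    (fourier ((n : ℕ) : ℤ) x : ℂ) = ((n • x : Tor).toCircle : ℂ) := by
  rw [fourier_apply, natCast_zsmul]

lemma fourier_su_mod {M : ℕ} {x : Tor} (h2 : (2 ^ M) • x = x) (h3 : (3 ^ M) • x = x) (k : ℕ)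
    {p q : ℕ × ℕ} (h1 : p.1 % M = q.1 % M) (h1' : p.2 % M = q.2 % M) :
    (fourier ((k * su p : ℕ) : ℤ) x : ℂ) = fourier ((k * su q : ℕ) : ℤ) x := by
  rw [fourier_nat, fourier_nat]
  have key : ∀ r : ℕ × ℕ, (k * su r) • x = k • ((2 ^ (r.1 % M)) • ((3 ^ (r.2 % M)) • x)) := by
    intro r
    unfold su
    rw [mul_smul, mul_smul, smul_mod h3 r.2]
    have h4 : (2 ^ M) • ((3 ^ (r.2 % M)) • x) = (3 ^ (r.2 % M)) • x := by
      rw [smul_comm, h2]
    rw [smul_mod h4 r.1]
  rw [key, key, h1, h1']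

/-- the average over the box of periods -/
noncomputable def bx (k M : ℕ) (x : Tor) : ℂ :=
  (∑ a ∈ range M, ∑ b ∈ range M, (fourier ((k * su (a, b) : ℕ) : ℤ) x : ℂ)) / (M * M)

lemma continuous_bx (k M : ℕ) : Continuous (bx k M) := by
  unfold bx
  fun_prop

lemma norm_bx_le (k M : ℕ) (x : Tor) : ‖bx k M x‖ ≤ 1 := by
  unfold bx
  rw [norm_div]
  have h1 : ‖((M : ℂ) * M)‖ = (M : ℝ) * M := by
    rw [norm_mul, Complex.norm_natCast]
  rw [h1]
  rcases Nat.eq_zero_or_pos M with h | h
  · subst h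
    simp
  · have hM : (0 : ℝ) < M := by exact_mod_cast h
    rw [div_le_one (by positivity)]
    refine (norm_sum_le _ _).trans ?_
    calc ∑ a ∈ range M, ‖∑ b ∈ range M, (fourier ((k * su (a, b) : ℕ) : ℤ) x : ℂ)‖
        ≤ ∑ a ∈ range M, (M : ℝ) := by
          refine sum_le_sum fun a _ => (norm_sum_le _ _).trans ?_
          have : ∀ b ∈ range M, ‖(fourier ((k * su (a, b) : ℕ) : ℤ) x : ℂ)‖ = 1 := fun b _ => by
            rw [fourier_apply]
            exact Circle.norm_coe _
          rw [sum_congr rfl this]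
          simp
      _ = (M : ℝ) * M := by simp

lemma sum_shift (M : ℕ) (h : ℕ → ℂ) (h0 : h M = h 0) :
    ∑ a ∈ range M, h (a + 1) = ∑ a ∈ range M, h a := by
  have h1 := sum_range_succ h M
  have h2 := sum_range_succ' h M
  rw [h1, h0] at h2
  exact (add_right_cancel h2).symm

lemma fourier_smul (g n : ℕ) (x : Tor) :
    (fourier ((n : ℕ) : ℤ) (g • x) : ℂ) = fourier ((n * g : ℕ) : ℤ) x := by
  rw [fourier_nat, fourier_nat, mul_smul]

lemma bx_two {k M : ℕ} {x : Tor} (h2 : (2 ^ M) • x = x) (h3 : (3 ^ M) • x = x) :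
    bx k M ((2 : ℕ) • x) = bx k M x := by
  unfold bx
  congr 1
  have e : ∀ a b : ℕ, (fourier ((k * su (a, b) : ℕ) : ℤ) ((2 : ℕ) • x) : ℂ) =
      fourier ((k * su (a + 1, b) : ℕ) : ℤ) x := by
    intro a b
    rw [fourier_smul]
    congr 2
    unfold su
    push_cast
    ring
  simp only [e]
  exact sum_shift M (fun a => ∑ b ∈ range M, (fourier ((k * su (a, b) : ℕ) : ℤ) x : ℂ))
    (sum_congr rfl fun b _ => fourier_su_mod h2 h3 k (by simp) rfl)

lemma bx_three {k M : ℕ} {x : Tor} (h2 : (2 ^ M) • x = x) (h3 : (3 ^ M) • x = x) :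
    bx k M ((3 : ℕ) • x) = bx k M x := by
  unfold bx
  congr 1
  have e : ∀ a b : ℕ, (fourier ((k * su (a, b) : ℕ) : ℤ) ((3 : ℕ) • x) : ℂ) =
      fourier ((k * su (a, b + 1) : ℕ) : ℤ) x := by
    intro a b
    rw [fourier_smul]
    congr 2
    unfold su
    push_cast
    ring
  simp only [e]
  exact sum_congr rfl fun a _ => sum_shift M
    (fun b => (fourier ((k * su (a, b) : ℕ) : ℤ) x : ℂ)) (fourier_su_mod h2 h3 k rfl (by simp))

/-- invariance of the coefficients -/
lemma cf_smul {μ : Measure Tor} {g : ℕ} (h : Inv g μ) (n : ℕ) :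
    cf μ ((n * g : ℕ) : ℤ) = cf μ ((n : ℕ) : ℤ) := by
  unfold cf
  have h1 := integral_map (μ := μ) h.measurable.aemeasurable
    (f := fun x => (fourier ((n : ℕ) : ℤ) x : ℂ)) (fourier ((n : ℕ) : ℤ)).continuous.aestronglyMeasurable
  rw [h.map_eq] at h1
  rw [h1]
  refine integral_congr_ae (Eventually.of_forall fun x => ?_)
  exact (fourier_smul g n x).symm

lemma cf_su {μ : Measure Tor} (h2 : Inv 2 μ) (h3 : Inv 3 μ) (k a b : ℕ) :
    cf μ ((k * su (a, b) : ℕ) : ℤ) = cf μ ((k : ℕ) : ℤ) := by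
  induction a with
  | zero =>
    induction b with
    | zero => simp [su]
    | succ b ih =>
      have e : k * su (0, b + 1) = k * su (0, b) * 3 := by
        unfold su
        ring
      rw [e, cf_smul h3, ih]
  | succ a ih =>
    have e : k * su (a + 1, b) = k * su (a, b) * 2 := by
      unfold su
      ring
    rw [e, cf_smul h2, ih]

lemma integral_bx {μ : Measure Tor} [IsProbabilityMeasure μ] (h2 : Inv 2 μ) (h3 : Inv 3 μ)
    {k M : ℕ} (hM : 0 < M) : ∫ x, bx k M x ∂μ = cf μ k := by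
  unfold bx
  have hint : ∀ f : Tor → ℂ, Continuous f → Integrable f μ := fun f hf =>
    Helper17.TranslM.integrable_cont μ hf
  rw [integral_div, integral_finsetSum _ (fun a _ => hint _ (by fun_prop))]
  have e : ∀ a ∈ range M, ∫ x, ∑ b ∈ range M, (fourier ((k * su (a, b) : ℕ) : ℤ) x : ℂ) ∂μ =
      M * cf μ k := by
    intro a _
    rw [integral_finsetSum _ (fun b _ => hint _ (by fun_prop))]
    have e2 : ∀ b ∈ range M, ∫ x, (fourier ((k * su (a, b) : ℕ) : ℤ) x : ℂ) ∂μ = cf μ k :=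
      fun b _ => cf_su h2 h3 k a b
    rw [sum_congr rfl e2]
    simp
  rw [sum_congr rfl e]
  have hM' : (M : ℂ) ≠ 0 := by exact_mod_cast hM.ne'
  simp only [sum_const, card_range, nsmul_eq_mul]
  field_simp

theorem s_W5 : S_W5 := by
  intro μ hμ h2 h3 hE hfin η k hη hk
  obtain ⟨Z, hZ, hZμ⟩ := hfin
  obtain ⟨p2, hp2, hper2⟩ := Pool.Agent.Helper61.DR.exists_period (ν := μ) 2 h2 Z hZ hZμ
  obtain ⟨p3, hp3, hper3⟩ := Pool.Agent.Helper61.DR.exists_period (ν := μ) 3 h3 Z hZ hZμ
  set M : ℕ := p2 * p3 with hM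
  have hM0 : 0 < M := Nat.mul_pos hp2 hp3
  have hae : ∀ᵐ x ∂μ, (2 ^ M) • x = x ∧ (3 ^ M) • x = x := by
    filter_upwards [hper2, hper3] with x hx2 hx3
    refine ⟨smul_iter hx2 p3, ?_⟩
    rw [hM, mul_comm]
    exact smul_iter hx3 p2
  have hbx : ∀ᵐ x ∂μ, bx k M x = cf μ k := by
    obtain ⟨c, hc⟩ := hE (bx k M) (continuous_bx k M).measurable (norm_bx_le k M)
      (by filter_upwards [hae] with x hx using bx_two hx.1 hx.2)
      (by filter_upwards [hae] with x hx using bx_three hx.1 hx.2)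
    have h4 : c = cf μ k := by
      rw [← integral_bx h2 h3 hM0, integral_congr_ae hc]
      simp
    rw [h4] at hc
    exact hc
  obtain ⟨U₀, hU⟩ := Pool.Agent.Helper51.MX.exists_window_mod hη M hM0
  have h4log : Real.log 4 = 2 * Real.log 2 := by
    rw [show (4 : ℝ) = 2 ^ 2 by norm_num, Real.log_pow]
    push_cast
    ring
  have hl4 : 0 < Real.log 4 := Real.log_pos (by norm_num)
  obtain ⟨j₀, hj₀⟩ := exists_nat_ge (U₀ / Real.log 4)
  have hex : ∀ j : ℕ, j₀ ≤ j → ∃ w : ℕ × ℕ → ℕ × ℕ, ∀ r ∈ range M ×ˢ range M,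
      (w r).1 % M = r.1 ∧ (w r).2 % M = r.2 ∧ (4 : ℝ) ^ j ≤ su (w r) ∧
        (su (w r) : ℝ) < Real.exp η * 4 ^ j := by
    intro j hj
    have h5 : U₀ ≤ j * Real.log 4 := by
      have h6 : (j₀ : ℝ) ≤ j := by exact_mod_cast hj
      have h7 := hj₀.trans h6
      rwa [div_le_iff₀ hl4] at h7
    have h8 : ∀ r : ℕ × ℕ, ∃ q : ℕ × ℕ, r ∈ range M ×ˢ range M → q.1 % M = r.1 ∧
        q.2 % M = r.2 ∧ (4 : ℝ) ^ j ≤ su q ∧ (su q : ℝ) < Real.exp η * 4 ^ j := by
      intro r
      by_cases hr : r ∈ range M ×ˢ range M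
      · rw [mem_product, mem_range, mem_range] at hr
        obtain ⟨a, b, ha, hb, h9, h10⟩ := hU (j * Real.log 4) h5 r.1 r.2 hr.1 hr.2
        refine ⟨(a, b), fun _ => ⟨ha, hb, ?_⟩⟩
        have hpos : (0 : ℝ) < su (a, b) := by
          unfold su
          positivity
        have hlog : Real.log (su (a, b) : ℝ) = a * Real.log 2 + b * Real.log 3 := by
          unfold su
          push_cast
          rw [Real.log_mul (by positivity) (by positivity), Real.log_pow, Real.log_pow]
        have h11 : (4 : ℝ) ^ j = Real.exp (j * Real.log 4) := by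
          rw [mul_comm, Real.exp_mul, Real.exp_log (by norm_num), Real.rpow_natCast]
        rw [h11, ← Real.exp_add]
        constructor
        · rw [← Real.le_log_iff_exp_le hpos, hlog]
          exact h9
        · rw [← Real.log_lt_iff_lt_exp hpos, hlog]
          linarith
      · exact ⟨(0, 0), fun h => absurd h hr⟩
    choose w hw using h8
    exact ⟨w, fun r hr => hw r hr⟩
  choose w hw using hex
  refine ⟨fun j => if h : j₀ ≤ j then (range M ×ˢ range M).image (w j h) else {(2 * j, 0)},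
    fun j => ?_, j₀, fun j hj => ?_⟩
  · by_cases h : j₀ ≤ j
    · simp only [h, dite_true]
      constructor
      · refine Finset.Nonempty.image ⟨(0, 0), ?_⟩ _
        rw [mem_product, mem_range]
        exact ⟨hM0, hM0⟩
      · intro p hp
        rw [mem_image] at hp
        obtain ⟨r, hr, rfl⟩ := hp
        exact (hw j h r hr).2.2
    · simp only [h, dite_false]
      refine ⟨singleton_nonempty _, fun p hp => ?_⟩
      rw [mem_singleton] at hp
      subst hp
      have e : ((su (2 * j, 0) : ℕ) : ℝ) = 4 ^ j := by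
        unfold su
        push_cast
        rw [pow_mul]
        norm_num
      rw [e]
      refine ⟨le_rfl, ?_⟩
      have h5 : (1 : ℝ) < Real.exp η := Real.one_lt_exp_iff.2 hη
      have h6 : (0 : ℝ) < 4 ^ j := by positivity
      nlinarith
  · simp only [hj, dite_true]
    filter_upwards [hae, hbx] with x hx hb
    rw [← hb]
    unfold wav bx
    have hinj : Set.InjOn (w j hj) (range M ×ˢ range M : Finset (ℕ × ℕ)) := by
      intro r hr r' hr' h
      have h5 := hw j hj r hr
      have h6 := hw j hj r' hr'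
      refine Prod.ext ?_ ?_
      · rw [← h5.1, ← h6.1, h]
      · rw [← h5.2.1, ← h6.2.1, h]
    rw [sum_image hinj, card_image_of_injOn hinj, card_product, card_range, sum_product]
    push_cast
    congr 1
    refine sum_congr rfl fun a ha => sum_congr rfl fun b hb' => ?_
    have hab : (a, b) ∈ range M ×ˢ range M := mem_product.2 ⟨ha, hb'⟩
    have h5 := hw j hj (a, b) hab
    rw [mem_range] at ha hb'
    have h6 := fourier_su_mod hx.1 hx.2 k (p := w j hj (a, b)) (q := (a, b))
      (by rw [h5.1]; exact (Nat.mod_eq_of_lt ha).symm)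
      (by rw [h5.2.1]; exact (Nat.mod_eq_of_lt hb').symm)
    exact_mod_cast h6

end Pool.Agent.Helper75.MX
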